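import Pool.Agent.Run7.h558.CycB

/-!
# The Peres conjecture fails for random walks on cycles

For `N` a product of very many, very large distinct primes, the lazy product walk on
`ℤ/N ≅ ∏ ℤ/p` has relaxation time at most two and a long mixing time.  Adding jumps to the uniform
distribution at a small rate `1 - q` multiplies the distance to stationarity by `q ^ t`, which
destroys the cutoff but not the product condition.
-/

set_option autoImplicit false
open Finset Filter Topology

namespace Pool.Agent.Results.MP_ee50b4_pr.NoCutoffOnCycles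

/-- An ergodic convolution walk on a cycle: a probability measure `μ` on `ℤ/N`, `N ≥ 2`, whose
support is not contained in a coset of a proper subgroup. -/
structure Walk where
  /-- the order of the group -/
  N : ℕ
  two_le : 2 ≤ N
  /-- the step law -/
  μ : ZMod N → ℝ
  nonneg : ∀ x, 0 ≤ μ x
  sum_one : ∑ᶠ x, μ x = 1
  ergodic : ∀ (H : AddSubgroup (ZMod N)) (a : ZMod N), (∀ x, μ x ≠ 0 → x - a ∈ H) → H = ⊤

instance (W : Walk) : NeZero W.N := ⟨by have := W.two_le; omega⟩

/-- The law of the walk after `t` steps, started at zero: the `t`-fold convolution power of the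
step law. -/
noncomputable def Walk.law (W : Walk) : ℕ → ZMod W.N → ℝ
  | 0 => fun x => if x = 0 then 1 else 0
  | t + 1 => fun x => ∑ y, W.law t (x - y) * W.μ y

/-- The total variation distance to the uniform distribution after `t` steps. -/
noncomputable def Walk.dist (W : Walk) (t : ℕ) : ℝ := (1 / 2) * ∑ x, |W.law t x - 1 / W.N|

/-- The mixing time. -/
noncomputable def Walk.tmix (W : Walk) (ε : ℝ) : ℕ := sInf {t | W.dist t ≤ ε}

/-- The eigenvalues: `∑ₓ μ(x) exp(2πi j x / N)`. -/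
noncomputable def Walk.eigenvalue (W : Walk) (j : ZMod W.N) : ℂ :=
  ∑ x, (W.μ x : ℂ) * ZMod.stdAddChar (j * x)

/-- The spectral gap. -/
noncomputable def Walk.gap (W : Walk) : ℝ := 1 - ⨆ j : {j : ZMod W.N // j ≠ 0}, ‖W.eigenvalue j‖

/-- The relaxation time. -/
noncomputable def Walk.trel (W : Walk) : ℝ := 1 / W.gap

/-- Total variation cutoff of a sequence of walks. -/
def Cutoff (W : ℕ → Walk) : Prop :=
  ∀ ε : ℝ, 0 < ε → ε < 1 / 2 →
    Tendsto (fun k => ((W k).tmix ε : ℝ) / ((W k).tmix (1 - ε) : ℝ)) atTop (𝓝 1)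

/-- The product condition. -/
def ProductCondition (W : ℕ → Walk) : Prop :=
  Tendsto (fun k => (W k).trel / ((W k).tmix (1 / 2) : ℝ)) atTop (𝓝 0)

open Run7.h558.Cyc in
/-- The walk for the parameter `n`, with its main properties. -/
theorem exists_walk (n : ℕ) (hn : 4 ≤ n) : ∃ W : Walk, n ≤ W.N ∧ (∀ x, W.μ (-x) = W.μ x) ∧
    1 / 2 ≤ W.gap ∧ W.gap ≤ 1 ∧
    (∀ t, W.dist t ≤ ((n : ℝ) / (n + 1)) ^ t) ∧
    ∀ t ≤ n ^ 2, 4 / 5 * ((n : ℝ) / (n + 1)) ^ t ≤ W.dist t := by
  obtain ⟨N, hN, Fa, hnN, hsum, hnn, hconv, h0, hsym, hlow, hfou⟩ := exists_base n hn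
  set q : ℝ := (n : ℝ) / (n + 1) with hq
  have hn0 : (0 : ℝ) < n := by positivity
  have hq0 : 0 ≤ q := by rw [hq]; positivity
  have hq1 : q < 1 := by rw [hq, div_lt_one (by positivity)]; linarith
  have hcard : (Fintype.card (ZMod N) : ℝ) = N := by rw [ZMod.card]
  have hNp : (0 : ℝ) < N := by
    have : 0 < N := by omega
    exact_mod_cast this
  let μ : ZMod N → ℝ := fun x => q * Fa 1 x + (1 - q) * (1 / Fintype.card (ZMod N))
  have hup : (0 : ℝ) < 1 / Fintype.card (ZMod N) := by rw [hcard]; positivity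
  have hμpos : ∀ x, 0 < μ x := by
    intro x
    have h1 := hnn 1 x
    have h2 : 0 < (1 - q) * (1 / (Fintype.card (ZMod N) : ℝ)) := mul_pos (by linarith) hup
    have h3 : 0 ≤ q * Fa 1 x := mul_nonneg hq0 h1
    show 0 < q * Fa 1 x + (1 - q) * (1 / Fintype.card (ZMod N))
    linarith
  let W : Walk :=
    { N := N
      two_le := by omega
      μ := μ
      nonneg := fun x => (hμpos x).le
      sum_one := by
        rw [finsum_eq_sum_of_fintype]
        show ∑ x, (q * Fa 1 x + (1 - q) * (1 / Fintype.card (ZMod N))) = 1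
        rw [sum_add_distrib, ← mul_sum, hsum, sum_const, card_univ, nsmul_eq_mul, hcard]
        field_simp
        ring
      ergodic := by
        intro H a h
        rw [AddSubgroup.eq_top_iff']
        intro x
        have h1 := h (x + a) (hμpos _).ne'
        rwa [add_sub_cancel_right] at h1 }
  have hlaw : ∀ t x, W.law t x = law μ t x := by
    intro t
    induction t with
    | zero =>
      intro x
      show (if x = 0 then (1 : ℝ) else 0) = (Pi.single 0 1 : ZMod N → ℝ) x
      rw [Pi.single_apply]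
    | succ t ih =>
      intro x
      show ∑ y : ZMod N, W.law t (x - y) * μ y = ∑ y : ZMod N, law μ t (x - y) * μ y
      refine sum_congr rfl fun y _ => ?_
      rw [ih]
  have hdist : ∀ t, W.dist t = q ^ t * dist0 Fa t := by
    intro t
    rw [← tv_gen Fa q hq0 hsum hconv h0 t]
    show (1 / 2) * ∑ x : ZMod N, |W.law t x - 1 / N| =
      (1 / 2) * ∑ x : ZMod N, |law μ t x - 1 / Fintype.card (ZMod N)|
    rw [hcard]
    congr 1
    refine sum_congr rfl fun x _ => ?_
    rw [hlaw]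
  have heig : ∀ j : ZMod N, j ≠ 0 → ‖W.eigenvalue j‖ ≤ 1 / 2 := by
    intro j hj
    have h1 : W.eigenvalue j = q * ∑ x, (Fa 1 x : ℂ) * ZMod.stdAddChar (j * x) := by
      show ∑ x : ZMod N, ((q * Fa 1 x + (1 - q) * (1 / Fintype.card (ZMod N)) : ℝ) : ℂ) *
        ZMod.stdAddChar (j * x) = _
      have h2 : ∀ x : ZMod N, ((q * Fa 1 x + (1 - q) * (1 / Fintype.card (ZMod N)) : ℝ) : ℂ) *
          ZMod.stdAddChar (j * x) = q * ((Fa 1 x : ℂ) * ZMod.stdAddChar (j * x)) +
          (((1 - q) * (1 / Fintype.card (ZMod N)) : ℝ) : ℂ) * ZMod.stdAddChar (x * j) := by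
        intro x
        rw [mul_comm x j]
        push_cast
        ring
      rw [sum_congr rfl fun x _ => h2 x, sum_add_distrib, ← mul_sum, ← mul_sum,
        AddChar.sum_mulShift j (ZMod.isPrimitive_stdAddChar N), if_neg hj]
      simp
    rw [h1, norm_mul, Complex.norm_real, Real.norm_eq_abs, abs_of_nonneg hq0]
    have h3 := hfou j hj
    nlinarith [norm_nonneg (∑ x, (Fa 1 x : ℂ) * ZMod.stdAddChar (j * x))]
  refine ⟨W, hnN, ?_, ?_, ?_, ?_, ?_⟩
  · intro x
    show q * Fa 1 (-x) + (1 - q) * (1 / Fintype.card (ZMod N)) =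
      q * Fa 1 x + (1 - q) * (1 / Fintype.card (ZMod N))
    rw [hsym]
  · unfold Walk.gap
    have h1 : (⨆ j : {j : ZMod W.N // j ≠ 0}, ‖W.eigenvalue j‖) ≤ 1 / 2 :=
      Real.iSup_le (fun j => heig j.1 j.2) (by norm_num)
    linarith
  · unfold Walk.gap
    have h1 : 0 ≤ ⨆ j : {j : ZMod W.N // j ≠ 0}, ‖W.eigenvalue j‖ :=
      Real.iSup_nonneg fun j => norm_nonneg _
    linarith
  · intro t
    rw [hdist]
    have h1 := dist0_le_one Fa hsum hnn t
    have h2 : 0 ≤ q ^ t := pow_nonneg hq0 t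
    nlinarith
  · intro t ht
    rw [hdist]
    have h1 := hlow t ht
    have h2 : 0 ≤ q ^ t := pow_nonneg hq0 t
    nlinarith

/-- Numerical facts about `q = n / (n + 1)`. -/
theorem q_pow_le_half {n : ℕ} (hn : 1 ≤ n) : ((n : ℝ) / (n + 1)) ^ n ≤ 1 / 2 := by
  have hn0 : (0 : ℝ) < n := by exact_mod_cast hn
  have h1 : (2 : ℝ) ≤ (1 + 1 / n) ^ n := by
    have h := one_add_mul_le_pow (a := (1 : ℝ) / n) (by have : 0 < (1 : ℝ) / n := by positivity
                                                        linarith) n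
    have h2 : (n : ℝ) * (1 / n) = 1 := by field_simp
    rw [h2] at h
    linarith
  have h3 : (n : ℝ) / (n + 1) = ((1 : ℝ) + 1 / (n : ℝ))⁻¹ := by
    field_simp
  rw [h3, inv_pow, inv_eq_one_div]
  gcongr

theorem q_pow_ge (n t : ℕ) : 1 - (t : ℝ) / (n + 1) ≤ ((n : ℝ) / (n + 1)) ^ t := by
  have h1 : (n : ℝ) / (n + 1) = 1 + (-(1 / ((n : ℝ) + 1))) := by
    field_simp
    ring
  rw [h1]
  have h2 : (1 : ℝ) / (n + 1) ≤ 1 := by
    rw [div_le_one (by positivity)]
    linarith [Nat.cast_nonneg (α := ℝ) n]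
  have h := one_add_mul_le_pow (a := -(1 / ((n : ℝ) + 1))) (by linarith) t
  calc 1 - (t : ℝ) / (n + 1) = 1 + t * -(1 / ((n : ℝ) + 1)) := by ring
    _ ≤ _ := h

/-- The sequence of walks. -/
noncomputable def seq (k : ℕ) : Walk := (exists_walk (k + 4) (by omega)).choose

theorem seq_spec (k : ℕ) : k + 4 ≤ (seq k).N ∧ (∀ x, (seq k).μ (-x) = (seq k).μ x) ∧
    1 / 2 ≤ (seq k).gap ∧ (seq k).gap ≤ 1 ∧
    (∀ t, (seq k).dist t ≤ (((k + 4 : ℕ) : ℝ) / ((k + 4 : ℕ) + 1)) ^ t) ∧
    ∀ t ≤ (k + 4) ^ 2, 4 / 5 * (((k + 4 : ℕ) : ℝ) / ((k + 4 : ℕ) + 1)) ^ t ≤ (seq k).dist t :=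
  (exists_walk (k + 4) (by omega)).choose_spec

theorem tmix_half_lower (k : ℕ) : ((k : ℝ) + 4) / 4 ≤ ((seq k).tmix (1 / 2) : ℝ) := by
  obtain ⟨-, -, -, -, hup, hlow⟩ := seq_spec k
  set n : ℕ := k + 4 with hn
  have hne : {t | (seq k).dist t ≤ 1 / 2}.Nonempty :=
    ⟨n, (hup n).trans (q_pow_le_half (by omega))⟩
  have hmem : (seq k).dist ((seq k).tmix (1 / 2)) ≤ 1 / 2 := Nat.sInf_mem hne
  by_contra hcon
  push Not at hcon
  set t := (seq k).tmix (1 / 2) with ht
  have hn' : (n : ℝ) = k + 4 := by rw [hn]; push_cast; ring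
  rw [← hn'] at hcon
  have h1 : t ≤ n ^ 2 := by
    have : (t : ℝ) < n := by
      have : (0 : ℝ) < n := by rw [hn']; positivity
      linarith
    have h2 : t < n := by exact_mod_cast this
    nlinarith
  have h2 := hlow t h1
  have h3 := q_pow_ge n t
  have h4 : (t : ℝ) / (n + 1) ≤ 1 / 4 := by
    rw [div_le_iff₀ (by positivity)]
    linarith
  linarith

theorem ratio_lower (k : ℕ) : 2 * ((seq k).tmix (1 - 1 / 4) : ℝ) ≤ ((seq k).tmix (1 / 4) : ℝ) ∧
    0 < (seq k).tmix (1 - 1 / 4) := by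
  obtain ⟨-, -, -, -, hup, hlow⟩ := seq_spec k
  set n : ℕ := k + 4 with hn
  set q : ℝ := (n : ℝ) / (n + 1) with hq
  have hn4 : (4 : ℝ) ≤ n := by rw [hn]; push_cast; linarith [Nat.cast_nonneg (α := ℝ) k]
  have hq0 : 0 < q := by rw [hq]; positivity
  have hqn := q_pow_le_half (n := n) (by omega)
  rw [← hq] at hqn
  have hex : ∃ t, q ^ t ≤ 3 / 4 := ⟨n, by linarith⟩
  classical
  set a := Nat.find hex with ha
  have ha1 : q ^ a ≤ 3 / 4 := Nat.find_spec hex
  have han : a ≤ n := Nat.find_min' hex (by linarith)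
  have ha2 : 2 ≤ a := by
    by_contra hcon
    have : a = 0 ∨ a = 1 := by omega
    rcases this with h | h
    · rw [h, pow_zero] at ha1; norm_num at ha1
    · rw [h, pow_one, hq, div_le_iff₀ (by positivity)] at ha1
      linarith
  have ha3 : 3 / 4 < q ^ (a - 1) := by
    have := Nat.find_min hex (m := a - 1) (by omega)
    exact not_le.1 this
  have hup34 : (seq k).tmix (1 - 1 / 4) ≤ a := by
    apply Nat.sInf_le
    show (seq k).dist a ≤ 1 - 1 / 4
    have := hup a
    linarith
  have hlow14 : 3 * (a - 1) < (seq k).tmix (1 / 4) := by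
    have hne : {t | (seq k).dist t ≤ 1 / 4}.Nonempty := by
      refine ⟨2 * n, ?_⟩
      show (seq k).dist (2 * n) ≤ 1 / 4
      have h1 := hup (2 * n)
      rw [mul_comm 2 n, pow_mul] at h1
      have h2 : (q ^ n) ^ 2 ≤ (1 / 2) ^ 2 := by gcongr
      rw [mul_comm 2 n]
      linarith
    have hmem : (seq k).dist ((seq k).tmix (1 / 4)) ≤ 1 / 4 := Nat.sInf_mem hne
    by_contra hcon
    push Not at hcon
    set t := (seq k).tmix (1 / 4) with ht
    have h1 : t ≤ n ^ 2 := by
      have e1 : 3 * (a - 1) ≤ 4 * n := by omega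
      have e2 : 4 * n ≤ n ^ 2 := by
        have : 4 ≤ n := by omega
        nlinarith
      omega
    have h2 := hlow t h1
    have h3 : q ^ (3 * (a - 1)) ≤ q ^ t :=
      pow_le_pow_of_le_one hq0.le (by rw [hq, div_le_one (by positivity)]; linarith) hcon
    have h4 : (3 / 4 : ℝ) ^ 3 ≤ q ^ (3 * (a - 1)) := by
      rw [mul_comm, pow_mul]
      gcongr
    norm_num at h4
    linarith
  have hpos : 0 < (seq k).tmix (1 - 1 / 4) := by
    have hne : {t | (seq k).dist t ≤ 1 - 1 / 4}.Nonempty := by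
      refine ⟨a, ?_⟩
      show (seq k).dist a ≤ 1 - 1 / 4
      have := hup a
      linarith
    have hmem : (seq k).dist ((seq k).tmix (1 - 1 / 4)) ≤ 1 - 1 / 4 := Nat.sInf_mem hne
    by_contra hcon
    have h0 : (seq k).tmix (1 - 1 / 4) = 0 := by omega
    rw [h0] at hmem
    have h2 := hlow 0 (Nat.zero_le _)
    rw [pow_zero] at h2
    norm_num at hmem h2
    linarith
  refine ⟨?_, hpos⟩
  have : 2 * (seq k).tmix (1 - 1 / 4) ≤ (seq k).tmix (1 / 4) := by omega
  exact_mod_cast this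

/-- There is a sequence of ergodic, even symmetric, convolution walks on cycles whose orders tend to
infinity, which satisfies the product condition but has no cutoff. -/
theorem result : ∃ W : ℕ → Walk, Tendsto (fun k => (W k).N) atTop atTop ∧
    (∀ k x, (W k).μ (-x) = (W k).μ x) ∧ ProductCondition W ∧ ¬ Cutoff W := by
  refine ⟨seq, ?_, fun k => (seq_spec k).2.1, ?_, ?_⟩
  · apply tendsto_atTop_mono (fun k => (seq_spec k).1)
    exact tendsto_add_atTop_nat 4
  · unfold ProductCondition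
    have h1 : ∀ k, (seq k).trel / ((seq k).tmix (1 / 2) : ℝ) ≤ 8 / ((k : ℝ) + 4) := by
      intro k
      obtain ⟨-, -, hg, -, -, -⟩ := seq_spec k
      have h2 := tmix_half_lower k
      have h3 : (seq k).trel ≤ 2 := by
        unfold Walk.trel
        rw [div_le_iff₀ (by linarith)]
        linarith
      have h4 : (0 : ℝ) < (k : ℝ) + 4 := by positivity
      calc (seq k).trel / ((seq k).tmix (1 / 2) : ℝ) ≤ 2 / (((k : ℝ) + 4) / 4) := by gcongr
        _ = 8 / ((k : ℝ) + 4) := by field_simp; norm_num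
    have h2 : ∀ k, 0 ≤ (seq k).trel / ((seq k).tmix (1 / 2) : ℝ) := by
      intro k
      obtain ⟨-, -, hg, -, -, -⟩ := seq_spec k
      apply div_nonneg _ (Nat.cast_nonneg _)
      unfold Walk.trel
      apply div_nonneg zero_le_one
      linarith
    have h3 : Tendsto (fun k : ℕ => (8 : ℝ) / ((k : ℝ) + 4)) atTop (𝓝 0) := by
      apply Tendsto.const_div_atTop
      exact tendsto_atTop_add_const_right _ _ tendsto_natCast_atTop_atTop
    exact squeeze_zero h2 h1 h3
  · intro hcut
    have h1 := hcut (1 / 4) (by norm_num) (by norm_num)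
    have h2 : ∀ k, (2 : ℝ) ≤ ((seq k).tmix (1 / 4) : ℝ) / ((seq k).tmix (1 - 1 / 4) : ℝ) := by
      intro k
      obtain ⟨h3, h4⟩ := ratio_lower k
      have h5 : (0 : ℝ) < ((seq k).tmix (1 - 1 / 4) : ℝ) := by exact_mod_cast h4
      rw [le_div_iff₀ h5]
      exact h3
    have h3 := ge_of_tendsto' h1 h2
    norm_num at h3

end Pool.Agent.Results.MP_ee50b4_pr.NoCutoffOnCycles
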